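import Mathlib
import Pool.Agent.R195.GWFam

/-! # MP_c62c12_an, Q1: the period is not bounded by `c / ‖2 α‖`

For every large `k` there are an irrational `α` with `1 / 10 < α < 1 / 9` and a starting point
whose sign sequence is (purely) periodic with least period `18 k + 16`. So the period is not
`O(1 / ‖2 α‖)`. -/

set_option autoImplicit false

namespace Pool.Agent.Results.MP_c62c12_an.PeriodNotBounded

open Pool.Agent.R195.GW

/-- The negated form of Q1, with `α` in `(1 / 10, 1 / 9)`: here `|2 α - round (2 α)|` is the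
distance `‖2 α‖` of `2 α` to the nearest integer. -/
theorem result (c : ℝ) (hc : 0 < c) : ∃ (α : ℝ) (z₀ : ℂ) (ε : ℕ → ℤ) (p : ℕ),
    0 < α ∧ Irrational α ∧ 1 / 10 < α ∧ α < 1 / 9 ∧ IsSignSequence α z₀ ε ∧ HasPeriod ε p ∧
      c / |2 * α - round (2 * α)| < p := by
  obtain ⟨k₀, hk₀⟩ := family
  obtain ⟨K, hK⟩ := exists_nat_gt (5 * c)
  obtain ⟨α, z₀, ε, hirr, h1, h2, hs, hp⟩ := hk₀ (k₀ + K) (by omega)
  refine ⟨α, z₀, ε, _, by linarith, hirr, h1, h2, hs, hp, ?_⟩
  have hr : round (2 * α) = 0 := by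
    rw [round_eq, Int.floor_eq_iff]
    constructor <;> push_cast <;> linarith
  rw [hr]
  push_cast
  rw [sub_zero, abs_of_pos (by linarith)]
  have h3 : c / (2 * α) ≤ 5 * c := by
    rw [div_le_iff₀ (by linarith)]
    nlinarith
  have hk0 : (0:ℝ) ≤ k₀ := Nat.cast_nonneg _
  have hK0 : (0:ℝ) ≤ K := Nat.cast_nonneg _
  linarith

end Pool.Agent.Results.MP_c62c12_an.PeriodNotBounded
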